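import Pool.Agent.H36.Mealy

open Pool.Agent.H38.NP Pool.Agent.H36.PSpace Pool.Agent.H36.Tab

theorem Pool.Agent.Results.MP_5adc07_lc.Hard.result :
    PSPACEHardOn
      (fun p : ℕ × ℕ × List (List ℕ) × List (List ℕ) =>
        0 < p.1 ∧ Total p.1 p.2.1 p.1 p.2.2.1 ∧ Total p.1 p.2.1 p.2.1 p.2.2.2)
      (fun p => Reset p.1 p.2.1 p.2.2.1 p.2.2.2) :=
  reset_psh.hardOn
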